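import Pool.Agent.Run7.h847.LW.FMWa
import Pool.Agent.Run7.h462.LW.Stm

/-!
Piece FMW of the project LW of helper462 (helper847).
-/

set_option autoImplicit false

namespace Run7.h847.LW

theorem fmw (k : ℕ) : Run7.h462.LW.S_FMW k := fmw' k

end Run7.h847.LW
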