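import Mathlib

/-!
Piece FMW of the project LW of helper462 (helper847): the first moment.
-/

set_option autoImplicit false

namespace Run7.h847.LW

open Finset

/-- the tuples of distinct integers `0 ≤ h_i < H` -/
def inj (k H : ℕ) : Finset (Fin k → ℕ) :=
  (Fintype.piFinset (fun _ : Fin k => range H)).filter Function.Injective

/-- the count -/
noncomputable def cnt {k : ℕ} (x : ℤ) (Y H : ℕ) (T : Finset ℤ) (h : Fin k → ℕ) : ℕ :=
  #((Ioc (x - H) (x + Y)).filter (fun y : ℤ => ∀ i, y + (h i : ℤ) ∈ T))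

/-- the number of the elements of `T` in the window -/
noncomputable def tt (H : ℕ) (T : Finset ℤ) (y : ℤ) : ℕ :=
  #((range H).filter fun j : ℕ => y + (j : ℤ) ∈ T)

theorem card_inj (k H : ℕ) (T : Finset ℤ) (y : ℤ) :
    (tt H T y + 1 - k) ^ k ≤ #((inj k H).filter fun h => ∀ i, y + (h i : ℤ) ∈ T) := by
  classical
  refine (Nat.pow_sub_le_descFactorial _ _).trans ?_
  have h1 : (tt H T y).descFactorial k =
      Fintype.card (Fin k ↪ {j // j ∈ (range H).filter fun j : ℕ => y + (j : ℤ) ∈ T}) := by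
    rw [Fintype.card_embedding_eq, Fintype.card_coe, Fintype.card_fin]
    rfl
  rw [h1, ← Finset.card_univ]
  refine Finset.card_le_card_of_injOn (fun e i => (e i).1) ?_ ?_
  · intro e _
    rw [Finset.mem_coe, Finset.mem_filter, inj, Finset.mem_filter, Fintype.mem_piFinset]
    refine ⟨⟨fun i => (Finset.mem_filter.1 (e i).2).1, fun i i' hii => ?_⟩,
      fun i => (Finset.mem_filter.1 (e i).2).2⟩
    exact e.injective (Subtype.ext hii)
  · intro e _ e' _ hee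
    ext i
    exact congrFun hee i

theorem sum_cnt (k H Y : ℕ) (x : ℤ) (T : Finset ℤ) :
    ∑ h ∈ inj k H, cnt x Y H T h =
      ∑ y ∈ Ioc (x - (H : ℤ)) (x + (Y : ℤ)),
        #((inj k H).filter fun h => ∀ i, y + (h i : ℤ) ∈ T) := by
  classical
  unfold cnt
  simp only [Finset.card_filter]
  exact Finset.sum_comm

theorem sum_tt (H Y : ℕ) (x : ℤ) (T : Finset ℤ) (hT : T ⊆ Ioc x (x + (Y : ℤ))) :
    ∑ y ∈ Ioc (x - (H : ℤ)) (x + (Y : ℤ)), tt H T y = H * #T := by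
  classical
  unfold tt
  simp only [Finset.card_filter]
  rw [Finset.sum_comm]
  have h1 : ∀ j ∈ range H, ∑ y ∈ Ioc (x - (H : ℤ)) (x + (Y : ℤ)),
      (if y + (j : ℤ) ∈ T then 1 else 0) = #T := by
    intro j hj
    rw [← Finset.card_filter]
    have hjH : (j : ℤ) < H := by exact_mod_cast Finset.mem_range.1 hj
    refine Finset.card_bij (fun y _ => y + (j : ℤ)) ?_ ?_ ?_
    · intro y hy
      exact (Finset.mem_filter.1 hy).2
    · intro y _ y' _ h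
      exact add_right_cancel h
    · intro τ hτ
      have h2 := Finset.mem_Ioc.1 (hT hτ)
      refine ⟨τ - j, Finset.mem_filter.2 ⟨Finset.mem_Ioc.2 ⟨by omega, by omega⟩, ?_⟩, by ring⟩
      rw [sub_add_cancel]
      exact hτ
  rw [Finset.sum_congr rfl h1, Finset.sum_const, card_range, smul_eq_mul]

theorem fmw' (k : ℕ) : ∀ η δ : ℝ, 0 < η → 0 < δ → ∃ B c₀ : ℝ, 0 < B ∧ 0 < c₀ ∧ c₀ ≤ 1 ∧
    ∀ Y : ℕ, 2 ≤ Y → ∀ x : ℤ, ∀ T : Finset ℤ, T ⊆ Ioc x (x + Y) →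
    δ * (Y / Real.log Y) ≤ #T → ∀ H : ℕ, B * Real.log Y ≤ H → (H : ℝ) ≤ c₀ * Y →
    (1 - η) * ((H : ℝ) ^ k * ((#T : ℝ) ^ k / (Y : ℝ) ^ (k - 1))) ≤
      ∑ h ∈ inj k H, (cnt x Y H T h : ℝ) := by
  classical
  intro η₀ δ hη₀ hδ
  -- reduce to `η < 1`
  obtain ⟨η, hη, hη1, hηη⟩ : ∃ η : ℝ, 0 < η ∧ η ≤ 1 ∧ η ≤ η₀ :=
    ⟨min η₀ 1, lt_min hη₀ one_pos, min_le_right _ _, min_le_left _ _⟩
  have hred : ∀ (Y H : ℕ) (T : Finset ℤ),
      (1 - η₀) * ((H : ℝ) ^ k * ((#T : ℝ) ^ k / (Y : ℝ) ^ (k - 1))) ≤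
      (1 - η) * ((H : ℝ) ^ k * ((#T : ℝ) ^ k / (Y : ℝ) ^ (k - 1))) := fun Y H T =>
    mul_le_mul_of_nonneg_right (by linarith) (by positivity)
  rcases Nat.eq_zero_or_pos k with hk0 | hk0
  · subst hk0
    refine ⟨1, 1, one_pos, one_pos, le_refl _, fun Y hY x T hT hTc H hH hHY => ?_⟩
    refine (hred Y H T).trans ?_
    have h1 : (1 : ℝ) ≤ ∑ h ∈ inj 0 H, (cnt x Y H T h : ℝ) := by
      have hmem : (fun i : Fin 0 => i.elim0) ∈ inj 0 H := by
        unfold inj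
        rw [Finset.mem_filter, Fintype.mem_piFinset]
        exact ⟨fun i => i.elim0, fun i => i.elim0⟩
      have h2 : (1 : ℝ) ≤ (cnt x Y H T (fun i : Fin 0 => i.elim0) : ℝ) := by
        have : 1 ≤ cnt x Y H T (fun i : Fin 0 => (i.elim0 : ℕ)) := by
          unfold cnt
          rw [Nat.one_le_iff_ne_zero, Finset.card_ne_zero]
          exact ⟨x + Y, Finset.mem_filter.2 ⟨Finset.mem_Ioc.2 ⟨by omega, le_refl _⟩,
            fun i => i.elim0⟩⟩
        exact_mod_cast this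
      exact h2.trans (Finset.single_le_sum (f := fun h => (cnt x Y H T h : ℝ))
        (fun _ _ => Nat.cast_nonneg _) hmem)
    simp only [pow_zero, Nat.zero_sub]
    linarith
  obtain ⟨m, hm⟩ : ∃ m, k = m + 1 := ⟨k - 1, by omega⟩
  have hkr : (1 : ℝ) ≤ k := by exact_mod_cast hk0
  set c₀ : ℝ := η / (2 * k) with hc₀
  have hc₀p : 0 < c₀ := by positivity
  have hkc : k * c₀ = η / 2 := by rw [hc₀]; field_simp
  have hc₀1 : c₀ ≤ 1 / 2 := by nlinarith
  refine ⟨2 * k / (δ * c₀), c₀, by positivity, hc₀p, by linarith,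
    fun Y hY x T hT hTc H hH hHY => ?_⟩
  refine (hred Y H T).trans ?_
  have hYr : (2 : ℝ) ≤ Y := by exact_mod_cast hY
  have hlog : 0 < Real.log Y := Real.log_pos (by linarith)
  have hY0 : (0 : ℝ) < Y := by linarith
  have hHp : (0 : ℝ) < H := lt_of_lt_of_le (by positivity) hH
  have hTp : (0 : ℝ) < #T := lt_of_lt_of_le (by positivity) hTc
  set I := Ioc (x - (H : ℤ)) (x + (Y : ℤ)) with hI
  have hIc : (#I : ℝ) = Y + H := by
    rw [hI, Int.card_Ioc]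
    have : (x + (Y : ℤ) - (x - (H : ℤ))).toNat = Y + H := by omega
    rw [this]; push_cast; ring
  set u : ℤ → ℝ := fun y => ((tt H T y + 1 - k : ℕ) : ℝ) with hu
  have h1 : ∑ y ∈ I, u y ^ k ≤ ∑ h ∈ inj k H, (cnt x Y H T h : ℝ) := by
    have h2 := sum_cnt k H Y x T
    have h3 : ∑ h ∈ inj k H, (cnt x Y H T h : ℝ) =
        ∑ y ∈ I, ((#((inj k H).filter fun h => ∀ i, y + (h i : ℤ) ∈ T) : ℕ) : ℝ) := by
      exact_mod_cast h2
    rw [h3]
    refine Finset.sum_le_sum fun y _ => ?_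
    have h20 := card_inj k H T y
    show ((tt H T y + 1 - k : ℕ) : ℝ) ^ k ≤ _
    exact_mod_cast h20
  have h4 : (∑ y ∈ I, u y) ^ k / (#I : ℝ) ^ m ≤ ∑ y ∈ I, u y ^ k := by
    rw [hm]
    exact pow_sum_div_card_le_sum_pow (fun y _ => Nat.cast_nonneg _) m
  have h5 : H * #T - k * ((Y : ℝ) + H) ≤ ∑ y ∈ I, u y := by
    have h6 : ∑ y ∈ I, ((tt H T y : ℝ) - k) ≤ ∑ y ∈ I, u y := by
      refine Finset.sum_le_sum fun y _ => ?_
      show (tt H T y : ℝ) - k ≤ ((tt H T y + 1 - k : ℕ) : ℝ)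
      rcases le_total k (tt H T y) with h | h
      · rw [Nat.cast_sub (by omega)]
        push_cast; linarith
      · have h7 : (tt H T y : ℝ) ≤ k := by exact_mod_cast h
        have h8 : (0 : ℝ) ≤ ((tt H T y + 1 - k : ℕ) : ℝ) := Nat.cast_nonneg _
        linarith
    have h9 : ∑ y ∈ I, ((tt H T y : ℝ) - k) = H * #T - k * ((Y : ℝ) + H) := by
      rw [Finset.sum_sub_distrib, Finset.sum_const, nsmul_eq_mul, hIc]
      have h10 := sum_tt H Y x T hT
      have h11 : ∑ y ∈ I, (tt H T y : ℝ) = H * #T := by exact_mod_cast h10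
      rw [h11]; ring
    linarith
  -- the main estimate
  have hHT : 2 * k / c₀ * Y ≤ H * #T := by
    calc 2 * k / c₀ * Y = (2 * k / (δ * c₀) * Real.log Y) * (δ * (Y / Real.log Y)) := by
          field_simp
      _ ≤ H * #T := mul_le_mul hH hTc (by positivity) hHp.le
  have hYH : (Y : ℝ) + H ≤ 2 * Y := by nlinarith
  have h12 : (1 - c₀) * (H * #T) ≤ ∑ y ∈ I, u y := by
    refine le_trans ?_ h5
    have : k * ((Y : ℝ) + H) ≤ c₀ * (H * #T) := by
      calc k * ((Y : ℝ) + H) ≤ k * (2 * Y) := by gcongr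
        _ = c₀ * (2 * k / c₀ * Y) := by field_simp
        _ ≤ c₀ * (H * #T) := by gcongr
    linarith
  have h13 : ((1 - c₀) * (H * #T)) ^ k / ((1 + c₀) * Y) ^ m ≤
      (∑ y ∈ I, u y) ^ k / (#I : ℝ) ^ m := by
    rw [hIc]
    have : (Y : ℝ) + H ≤ (1 + c₀) * Y := by linarith
    have h14 : 0 ≤ (1 - c₀) * (H * #T) := by
      apply mul_nonneg (by linarith) (by positivity)
    gcongr
  refine le_trans ?_ (h13.trans (h4.trans h1))
  have hb1 : 1 - η / 2 ≤ (1 - c₀) ^ k := by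
    have := one_add_mul_le_pow (show (-2 : ℝ) ≤ -c₀ by linarith) k
    have h15 : 1 + (k : ℝ) * -c₀ = 1 - η / 2 := by linarith
    rw [h15] at this
    rwa [← sub_eq_add_neg] at this
  have hb2 : (1 - η / 2) * (1 + c₀) ^ m ≤ 1 := by
    have h16 : 1 - η / 2 ≤ (1 - c₀) ^ m := by
      refine hb1.trans ?_
      exact pow_le_pow_of_le_one (by linarith) (by linarith) (by omega)
    calc (1 - η / 2) * (1 + c₀) ^ m ≤ (1 - c₀) ^ m * (1 + c₀) ^ m := by gcongr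
      _ = ((1 - c₀) * (1 + c₀)) ^ m := by rw [mul_pow]
      _ ≤ 1 := pow_le_one₀ (by nlinarith) (by nlinarith)
  have hkm : k - 1 = m := by omega
  rw [hkm, mul_pow, mul_pow, mul_pow]
  have hpos : (0 : ℝ) < (1 + c₀) ^ m := by positivity
  have hYm : (0 : ℝ) < (Y : ℝ) ^ m := by positivity
  rw [show (1 - η) * ((H : ℝ) ^ k * ((#T : ℝ) ^ k / (Y : ℝ) ^ m)) =
    ((1 - η) * ((H : ℝ) ^ k * (#T : ℝ) ^ k)) / (Y : ℝ) ^ m by ring,
    div_le_div_iff₀ hYm (by positivity)]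
  have hmain : (1 - η) * (1 + c₀) ^ m ≤ (1 - c₀) ^ k := by
    have h17 : 1 - η ≤ (1 - η / 2) * (1 - η / 2) := by nlinarith
    calc (1 - η) * (1 + c₀) ^ m ≤ ((1 - η / 2) * (1 - η / 2)) * (1 + c₀) ^ m := by gcongr
      _ = (1 - η / 2) * ((1 - η / 2) * (1 + c₀) ^ m) := by ring
      _ ≤ (1 - η / 2) * 1 := by
          apply mul_le_mul_of_nonneg_left hb2 (by linarith)
      _ ≤ (1 - c₀) ^ k := by rw [mul_one]; exact hb1
  calc (1 - η) * ((H : ℝ) ^ k * (#T : ℝ) ^ k) * ((1 + c₀) ^ m * (Y : ℝ) ^ m)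
      = ((1 - η) * (1 + c₀) ^ m) * (((H : ℝ) ^ k * (#T : ℝ) ^ k) * (Y : ℝ) ^ m) := by ring
    _ ≤ (1 - c₀) ^ k * (((H : ℝ) ^ k * (#T : ℝ) ^ k) * (Y : ℝ) ^ m) := by gcongr
    _ = (1 - c₀) ^ k * ((H : ℝ) ^ k * (#T : ℝ) ^ k) * (Y : ℝ) ^ m := by ring

end Run7.h847.LW
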